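import Pool.Agent.Lib_helper4.LDK.Defs
import Pool.Agent.Lib_helper33.RC_Bridge2

/-!
# LDK, block CLS: members of the class `FlaggedPencil`

If `A, B ≥ 0` and `A + B` has rank at most three, then some combination `s A - t B`, `s, t ≥ 0`,
`s + t = 1`, has at most one positive and at most one negative eigenvalue.
-/

set_option autoImplicit false

open scoped BigOperators ComplexOrder Kronecker MatrixOrder Topology
open MeasureTheory Set Matrix Filter

namespace Pool.Agent.LDK

open Pool.Agent.RC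

variable {b : Type} [Fintype b] [DecidableEq b]

/-- `x* M y` -/
def CLS_q (M : Matrix b b ℂ) (x y : b → ℂ) : ℂ := star x ⬝ᵥ (M *ᵥ y)

/-- `M` is positive definite on some plane -/
def CLS_pos2 (M : Matrix b b ℂ) : Prop :=
  ∃ x y : b → ℂ, 0 < (CLS_q M x x).re ∧
    Complex.normSq (CLS_q M x y) < (CLS_q M x x).re * (CLS_q M y y).re

omit [DecidableEq b] in
theorem CLS_q_symm {M : Matrix b b ℂ} (hM : M.IsHermitian) (x y : b → ℂ) :
    CLS_q M y x = star (CLS_q M x y) := by
  unfold CLS_q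
  rw [Matrix.star_dotProduct, star_mulVec, hM.eq, ← dotProduct_mulVec]

omit [DecidableEq b] in
theorem CLS_q_expand {M : Matrix b b ℂ} (hM : M.IsHermitian) (x y : b → ℂ) (s t : ℂ) :
    (CLS_q M (s • x + t • y) (s • x + t • y)).re =
      Complex.normSq s * (CLS_q M x x).re + 2 * (star s * t * CLS_q M x y).re +
        Complex.normSq t * (CLS_q M y y).re := by
  have h1 : CLS_q M (s • x + t • y) (s • x + t • y) = star s * s * CLS_q M x x +
      star s * t * CLS_q M x y + star t * s * CLS_q M y x + star t * t * CLS_q M y y := by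
    unfold CLS_q
    rw [Matrix.mulVec_add, Matrix.mulVec_smul, Matrix.mulVec_smul, star_add, star_smul, star_smul,
      add_dotProduct, dotProduct_add, dotProduct_add]
    simp only [smul_dotProduct, dotProduct_smul, smul_eq_mul]
    ring
  have h2 : star t * s * CLS_q M y x = star (star s * t * CLS_q M x y) := by
    rw [CLS_q_symm hM]
    simp only [star_mul', star_star]
    ring
  rw [h1, h2]
  simp only [RCLike.star_def, Complex.add_re, Complex.conj_re, Complex.mul_re, Complex.mul_im,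
    Complex.conj_im, Complex.normSq_apply]
  ring

omit [DecidableEq b] in
theorem CLS_pos2_form {M : Matrix b b ℂ} (hM : M.IsHermitian) {x y : b → ℂ}
    (h1 : 0 < (CLS_q M x x).re)
    (h2 : Complex.normSq (CLS_q M x y) < (CLS_q M x x).re * (CLS_q M y y).re) (s t : ℂ)
    (hst : ¬ (s = 0 ∧ t = 0)) : 0 < (CLS_q M (s • x + t • y) (s • x + t • y)).re := by
  rw [CLS_q_expand hM]
  set al := (CLS_q M x x).re
  set ga := (CLS_q M y y).re
  set be := CLS_q M x y
  by_cases ht : t = 0
  · have hs : s ≠ 0 := fun h => hst ⟨h, ht⟩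
    subst ht
    have := Complex.normSq_pos.2 hs
    simp only [mul_zero, zero_mul, Complex.zero_re, map_zero, add_zero]
    positivity
  · have h3 := Complex.normSq_pos.2 ht
    have h4 : al * (Complex.normSq s * al + 2 * (star s * t * be).re + Complex.normSq t * ga) =
        Complex.normSq ((al : ℂ) * s + be * t) +
          (al * ga - Complex.normSq be) * Complex.normSq t := by
      simp only [RCLike.star_def, Complex.add_re, Complex.conj_re, Complex.mul_re, Complex.mul_im,
        Complex.conj_im, Complex.normSq_apply, Complex.ofReal_re, Complex.ofReal_im,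
        Complex.add_im]
      ring
    have h5 : 0 < al * (Complex.normSq s * al + 2 * (star s * t * be).re +
        Complex.normSq t * ga) := by
      rw [h4]
      have := Complex.normSq_nonneg ((al : ℂ) * s + be * t)
      have h6 : 0 < (al * ga - Complex.normSq be) * Complex.normSq t :=
        mul_pos (by linarith) h3
      linarith
    exact (mul_pos_iff_of_pos_left h1).1 h5

theorem CLS_sig11_of_not_pos2 {M : Matrix b b ℂ} (hM : M.IsHermitian) (h1 : ¬ CLS_pos2 M)
    (h2 : ¬ CLS_pos2 (-M)) :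
    ∃ v w : b → ℂ, M = vecMulVec v (star v) - vecMulVec w (star w) := by
  classical
  have hsp := hM.spectral_theorem
  rw [Unitary.conjStarAlgAut_apply] at hsp
  set c := hM.eigenvalues with hc
  set U : Matrix b b ℂ := (hM.eigenvectorUnitary : Matrix b b ℂ) with hU
  have hM2 : M = ∑ k, (c k : ℂ) • vecMulVec (fun i => U i k) (star fun i => U i k) := by
    rw [← Pool.Agent.Lib_helper98.Renyi.conj_diagonal_eq_sum]
    exact hsp
  have hUU : Uᴴ * U = 1 := by
    have := (Unitary.mem_iff.1 hM.eigenvectorUnitary.2).1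
    exact this
  have hon : ∀ k l, star (fun i => U i k) ⬝ᵥ (fun i => U i l) = if k = l then 1 else 0 := by
    intro k l
    have h3 := congrFun (congrFun hUU k) l
    rw [Matrix.mul_apply, Matrix.one_apply] at h3
    rw [← h3]
    simp only [dotProduct, Pi.star_apply, Matrix.conjTranspose_apply]
  have hq : ∀ k l, CLS_q M (fun i => U i k) (fun i => U i l) = if k = l then (c k : ℂ) else 0 := by
    intro k l
    unfold CLS_q
    rw [hM2, Matrix.sum_mulVec, dotProduct_sum]
    simp only [Matrix.smul_mulVec, vecMulVec_mulVec, dotProduct_smul, smul_eq_mul, hon]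
    rw [Finset.sum_eq_single k]
    · by_cases hkl : k = l
      · simp [hkl]
      · simp [hkl]
    · intro m _ hm
      by_cases hml : m = l
      · simp [Ne.symm hm]
      · simp [hml]
    · intro h; exact absurd (Finset.mem_univ k) h
  have hpos : ∀ p q, p ≠ q → 0 < c p → c q ≤ 0 := by
    intro p q hpq hp
    by_contra hcon
    push Not at hcon
    refine h1 ⟨fun i => U i p, fun i => U i q, ?_, ?_⟩
    · rw [hq, if_pos rfl]
      simpa using hp
    · rw [hq, hq, hq, if_neg hpq, if_pos rfl, if_pos rfl]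
      simpa using mul_pos hp hcon
  have hneg : ∀ p q, p ≠ q → c p < 0 → 0 ≤ c q := by
    intro p q hpq hp
    by_contra hcon
    push Not at hcon
    have hn : ∀ x y, CLS_q (-M) x y = - CLS_q M x y := by
      intro x y
      unfold CLS_q
      rw [Matrix.neg_mulVec, dotProduct_neg]
    refine h2 ⟨fun i => U i p, fun i => U i q, ?_, ?_⟩
    · rw [hn, hq, if_pos rfl]
      simpa using hp
    · rw [hn, hn, hn, hq, hq, hq, if_neg hpq, if_pos rfl, if_pos rfl]
      simpa using mul_pos_of_neg_of_neg hp hcon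
  -- positive part
  have hP : ∃ v : b → ℂ, ∑ k ∈ Finset.univ.filter (fun k => 0 < c k),
      (c k : ℂ) • vecMulVec (fun i => U i k) (star fun i => U i k) = vecMulVec v (star v) := by
    by_cases hp : ∃ p, 0 < c p
    · obtain ⟨p, hp⟩ := hp
      have h3 : Finset.univ.filter (fun k => 0 < c k) = {p} := by
        ext k
        simp only [Finset.mem_filter, Finset.mem_univ, true_and, Finset.mem_singleton]
        constructor
        · intro hk
          by_contra hkp
          exact absurd (hpos p k (Ne.symm hkp) hp) (not_le.2 hk)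
        · rintro rfl; exact hp
      refine ⟨((Real.sqrt (c p) : ℝ) : ℂ) • (fun i => U i p), ?_⟩
      rw [h3, Finset.sum_singleton, Pool.Agent.Lib_helper98.Renyi.vecMulVec_scale _ hp.le]
    · push Not at hp
      refine ⟨0, ?_⟩
      rw [Finset.filter_false_of_mem (fun k _ => not_lt.2 (hp k))]
      simp
  have hN : ∃ w : b → ℂ, ∑ k ∈ Finset.univ.filter (fun k => ¬ 0 < c k),
      (c k : ℂ) • vecMulVec (fun i => U i k) (star fun i => U i k) = - vecMulVec w (star w) := by
    by_cases hp : ∃ p, c p < 0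
    · obtain ⟨p, hp⟩ := hp
      refine ⟨((Real.sqrt (-c p) : ℝ) : ℂ) • (fun i => U i p), ?_⟩
      rw [Pool.Agent.Lib_helper98.Renyi.vecMulVec_scale _ (by linarith),
        Finset.sum_eq_single p]
      · push_cast
        rw [neg_smul, neg_neg]
      · intro k hk hkp
        have h3 := (Finset.mem_filter.1 hk).2
        have h4 := hneg p k (Ne.symm hkp) hp
        have h5 : c k = 0 := le_antisymm (not_lt.1 h3) h4
        rw [h5]; simp
      · intro h
        exact absurd (Finset.mem_filter.2 ⟨Finset.mem_univ p, not_lt.2 hp.le⟩) h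
    · push Not at hp
      refine ⟨0, ?_⟩
      rw [Finset.sum_eq_zero]
      · simp
      · intro k hk
        have h3 := (Finset.mem_filter.1 hk).2
        have h5 : c k = 0 := le_antisymm (not_lt.1 h3) (hp k)
        rw [h5]; simp
  obtain ⟨v, hv⟩ := hP
  obtain ⟨w, hw⟩ := hN
  refine ⟨v, w, ?_⟩
  rw [sub_eq_add_neg, ← hv, ← hw, Finset.sum_filter_add_sum_filter_not]
  exact hM2

omit [DecidableEq b] in
theorem CLS_q_comb (A B : Matrix b b ℂ) (t : ℝ) (x y : b → ℂ) :
    CLS_q (((1 - t : ℝ) : ℂ) • A - (t : ℂ) • B) x y =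
      ((1 - t : ℝ) : ℂ) * CLS_q A x y - (t : ℂ) * CLS_q B x y := by
  unfold CLS_q
  rw [Matrix.sub_mulVec, Matrix.smul_mulVec, Matrix.smul_mulVec, dotProduct_sub, dotProduct_smul,
    dotProduct_smul, smul_eq_mul, smul_eq_mul]

omit [DecidableEq b] in
theorem CLS_q_neg (M : Matrix b b ℂ) (x y : b → ℂ) : CLS_q (-M) x y = - CLS_q M x y := by
  unfold CLS_q
  rw [Matrix.neg_mulVec, dotProduct_neg]

omit [DecidableEq b] in
theorem CLS_isOpen (F : ℝ → Matrix b b ℂ) (hF : ∀ x y, Continuous fun t => CLS_q (F t) x y) :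
    IsOpen {t | CLS_pos2 (F t)} := by
  have : {t | CLS_pos2 (F t)} = ⋃ x : b → ℂ, ⋃ y : b → ℂ, ({t | 0 < (CLS_q (F t) x x).re} ∩
      {t | Complex.normSq (CLS_q (F t) x y) < (CLS_q (F t) x x).re * (CLS_q (F t) y y).re}) := by
    ext t
    simp only [CLS_pos2, Set.mem_ofPred_eq, mem_iUnion, mem_inter_iff]
  rw [this]
  refine isOpen_iUnion fun x => isOpen_iUnion fun y => IsOpen.inter ?_ ?_
  · exact isOpen_lt continuous_const (Complex.continuous_re.comp (hF x x))
  · exact isOpen_lt (Complex.continuous_normSq.comp (hF x y))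
      ((Complex.continuous_re.comp (hF x x)).mul (Complex.continuous_re.comp (hF y y)))

theorem CLS_not_both {A B : Matrix b b ℂ} (hA : A.PosSemidef) (hB : B.PosSemidef)
    (hr : (A + B).rank ≤ 3) (t : ℝ)
    (h1 : CLS_pos2 (((1 - t : ℝ) : ℂ) • A - (t : ℂ) • B))
    (h2 : CLS_pos2 (-(((1 - t : ℝ) : ℂ) • A - (t : ℂ) • B))) : False := by
  set M := ((1 - t : ℝ) : ℂ) • A - (t : ℂ) • B with hM
  have hMh : M.IsHermitian := by
    rw [hM]
    unfold Matrix.IsHermitian
    rw [Matrix.conjTranspose_sub, Matrix.conjTranspose_smul, Matrix.conjTranspose_smul,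
      hA.1.eq, hB.1.eq]
    simp
  have hMn : (-M).IsHermitian := by
    unfold Matrix.IsHermitian
    rw [Matrix.conjTranspose_neg, hMh.eq]
  obtain ⟨x, y, h3, h4⟩ := h1
  obtain ⟨x', y', h5, h6⟩ := h2
  let φ : (Fin 4 → ℂ) →ₗ[ℂ] (b → ℂ) :=
    { toFun := fun c => (A + B) *ᵥ ((c 0 • x + c 1 • y) - (c 2 • x' + c 3 • y'))
      map_add' := by
        intro c d
        rw [← Matrix.mulVec_add]
        congr 1
        simp only [Pi.add_apply]
        module
      map_smul' := by
        intro r c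
        simp only [RingHom.id_apply]
        rw [← Matrix.mulVec_smul]
        congr 1
        simp only [Pi.smul_apply, smul_eq_mul]
        module }
  have hφr : Module.finrank ℂ (LinearMap.range φ) ≤ 3 := by
    refine le_trans (Submodule.finrank_mono ?_) hr
    rintro _ ⟨c, rfl⟩
    exact ⟨_, rfl⟩
  have hφ := LinearMap.finrank_range_add_finrank_ker φ
  rw [Module.finrank_fin_fun] at hφ
  have hk : LinearMap.ker φ ≠ ⊥ := by
    intro h
    rw [h, finrank_bot] at hφ
    omega
  obtain ⟨c, hc, hc0⟩ := Submodule.exists_mem_ne_zero_of_ne_bot hk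
  have hc' : (A + B) *ᵥ ((c 0 • x + c 1 • y) - (c 2 • x' + c 3 • y')) = 0 := hc
  set z := c 0 • x + c 1 • y with hz
  set z' := c 2 • x' + c 3 • y' with hz'
  -- A (z - z') = 0 = B (z - z')
  have hAB : A *ᵥ (z - z') = 0 ∧ B *ᵥ (z - z') = 0 := by
    have h7 : star (z - z') ⬝ᵥ (A *ᵥ (z - z')) + star (z - z') ⬝ᵥ (B *ᵥ (z - z')) = 0 := by
      rw [← dotProduct_add, ← Matrix.add_mulVec, hc', dotProduct_zero]
    have h8 := hA.dotProduct_mulVec_nonneg (z - z')
    have h9 := hB.dotProduct_mulVec_nonneg (z - z')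
    have h10 : star (z - z') ⬝ᵥ (A *ᵥ (z - z')) = 0 := by
      refine le_antisymm ?_ h8
      have : star (z - z') ⬝ᵥ (A *ᵥ (z - z')) = - (star (z - z') ⬝ᵥ (B *ᵥ (z - z'))) :=
        eq_neg_of_add_eq_zero_left h7
      rw [this]
      exact neg_nonpos.2 h9
    have h11 : star (z - z') ⬝ᵥ (B *ᵥ (z - z')) = 0 := by
      rw [h10, zero_add] at h7
      exact h7
    exact ⟨(hA.dotProduct_mulVec_zero_iff _).1 h10, (hB.dotProduct_mulVec_zero_iff _).1 h11⟩
  have hMz : M *ᵥ (z - z') = 0 := by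
    rw [hM, Matrix.sub_mulVec, Matrix.smul_mulVec, Matrix.smul_mulVec, hAB.1, hAB.2]
    simp
  have hzz : CLS_q M z z = CLS_q M z' z' := by
    have h7 : CLS_q M z z = CLS_q M z z' := by
      unfold CLS_q
      have : M *ᵥ z = M *ᵥ z' := by
        rw [Matrix.mulVec_sub, sub_eq_zero] at hMz
        exact hMz
      rw [this]
    have h8 : CLS_q M z z' = CLS_q M z' z' := by
      rw [CLS_q_symm hMh z' z, CLS_q_symm hMh z' z']
      unfold CLS_q
      have : M *ᵥ z = M *ᵥ z' := by
        rw [Matrix.mulVec_sub, sub_eq_zero] at hMz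
        exact hMz
      rw [this]
    rw [h7, h8]
  by_cases ha : c 0 = 0 ∧ c 1 = 0
  · have hb : ¬ (c 2 = 0 ∧ c 3 = 0) := by
      intro hb
      apply hc0
      ext i
      fin_cases i
      · exact ha.1
      · exact ha.2
      · exact hb.1
      · exact hb.2
    have h7 := CLS_pos2_form hMn h5 h6 (c 2) (c 3) hb
    rw [CLS_q_neg, ← hz', ← hzz, hz, ha.1, ha.2] at h7
    simp [CLS_q] at h7
  · have h7 := CLS_pos2_form hMh h3 h4 (c 0) (c 1) ha
    rw [← hz, hzz] at h7
    by_cases hb : c 2 = 0 ∧ c 3 = 0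
    · rw [hz', hb.1, hb.2] at h7
      simp [CLS_q] at h7
    · have h8 := CLS_pos2_form hMn h5 h6 (c 2) (c 3) hb
      rw [CLS_q_neg, ← hz', Complex.neg_re] at h8
      linarith

/-- For `A, B ≥ 0` with `rank (A + B) ≤ 3` some `s A - t B`, `s, t ≥ 0`, `s + t = 1`, is of the
form `v v* - w w*`. -/
theorem CLS_exists {A B : Matrix b b ℂ} (hA : A.PosSemidef) (hB : B.PosSemidef)
    (hr : (A + B).rank ≤ 3) :
    ∃ s t : ℝ, 0 ≤ s ∧ 0 ≤ t ∧ 0 < s + t ∧ ∃ v w : b → ℂ,
      (s : ℂ) • A - (t : ℂ) • B = vecMulVec v (star v) - vecMulVec w (star w) := by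
  let F : ℝ → Matrix b b ℂ := fun t => ((1 - t : ℝ) : ℂ) • A - (t : ℂ) • B
  have hF : ∀ x y, Continuous fun t => CLS_q (F t) x y := by
    intro x y
    have : (fun t => CLS_q (F t) x y) = fun t : ℝ =>
        ((1 - t : ℝ) : ℂ) * CLS_q A x y - (t : ℂ) * CLS_q B x y := by
      funext t
      exact CLS_q_comb A B t x y
    rw [this]
    fun_prop
  have hF' : ∀ x y, Continuous fun t => CLS_q (-(F t)) x y := by
    intro x y
    have : (fun t => CLS_q (-(F t)) x y) = fun t : ℝ => -CLS_q (F t) x y := by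
      funext t
      exact CLS_q_neg _ x y
    rw [this]
    exact (hF x y).neg
  have hO1 := CLS_isOpen F hF
  have hO2 := CLS_isOpen (fun t => -(F t)) hF'
  have key : ∃ t ∈ Icc (0 : ℝ) 1, ¬ CLS_pos2 (F t) ∧ ¬ CLS_pos2 (-(F t)) := by
    by_contra hcon
    push Not at hcon
    have hcov : Icc (0 : ℝ) 1 ⊆ {t | CLS_pos2 (F t)} ∪ {t | CLS_pos2 (-(F t))} := by
      intro t ht
      by_cases h : CLS_pos2 (F t)
      · exact Or.inl h
      · exact Or.inr (hcon t ht h)
    have hn0 : ¬ CLS_pos2 (-(F 0)) := by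
      rintro ⟨x, y, h, -⟩
      have : F 0 = A := by simp [F]
      rw [this, CLS_q_neg, Complex.neg_re] at h
      have h2 := (Complex.le_def.1 (hA.dotProduct_mulVec_nonneg x)).1
      simp only [Complex.zero_re] at h2
      unfold CLS_q at h
      linarith
    have hn1 : ¬ CLS_pos2 (F 1) := by
      rintro ⟨x, y, h, -⟩
      have : F 1 = -B := by simp [F]
      rw [this, CLS_q_neg, Complex.neg_re] at h
      have h2 := (Complex.le_def.1 (hB.dotProduct_mulVec_nonneg x)).1
      simp only [Complex.zero_re] at h2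
      unfold CLS_q at h
      linarith
    have h0 : (0 : ℝ) ∈ Icc (0 : ℝ) 1 := ⟨le_rfl, zero_le_one⟩
    have h1 : (1 : ℝ) ∈ Icc (0 : ℝ) 1 := ⟨zero_le_one, le_rfl⟩
    obtain ⟨t, -, ht1, ht2⟩ := isPreconnected_Icc (a := (0 : ℝ)) (b := 1) _ _ hO1 hO2 hcov
      ⟨0, h0, (hcov h0).resolve_right hn0⟩ ⟨1, h1, (hcov h1).resolve_left hn1⟩
    exact CLS_not_both hA hB hr t ht1 ht2
  obtain ⟨t, ⟨ht0, ht1⟩, h1, h2⟩ := key
  refine ⟨1 - t, t, by linarith, ht0, by linarith, ?_⟩
  refine CLS_sig11_of_not_pos2 ?_ h1 h2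
  unfold Matrix.IsHermitian
  rw [Matrix.conjTranspose_sub, Matrix.conjTranspose_smul, Matrix.conjTranspose_smul,
    hA.1.eq, hB.1.eq]
  simp

open Pool.Agent.Lib_helper98.Renyi

theorem pencil_of_rankTwo {σ : Fin 2 → Matrix b b ℂ} (h : FlaggedRankTwo σ) :
    FlaggedPencil σ := by
  obtain ⟨m, P, h1, h2, h3, h4, h5⟩ := h
  refine ⟨m, P, h1, h2, h3, h4, fun i => ⟨1, 1, zero_le_one, zero_le_one, by norm_num, ?_⟩⟩
  obtain ⟨v, w, hvw⟩ := h5 i
  refine ⟨v, w, ?_⟩
  rw [← hvw]
  simp

/-- a block decomposition with `rank P i (σ 0 + σ 1) ≤ 3` -/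
theorem pencil_of_blocks {σ : Fin 2 → Matrix b b ℂ} (h : ∀ x, (σ x).PosSemidef)
    {m : ℕ} (P : Fin m → Matrix b b ℂ) (h1 : ∀ i, (P i).IsHermitian) (h2 : ∀ i, P i * P i = P i)
    (h3 : ∑ i, P i = 1) (h4 : ∀ i x, P i * σ x = σ x * P i)
    (h5 : ∀ i, (P i * (σ 0 + σ 1)).rank ≤ 3) : FlaggedPencil σ := by
  refine ⟨m, P, h1, h2, h3, h4, fun i => ?_⟩
  have hps : ∀ x, (P i * σ x).PosSemidef := by
    intro x
    have h6 : P i * σ x = (P i)ᴴ * σ x * P i := by
      rw [(h1 i).eq, Matrix.mul_assoc, ← h4 i x, ← Matrix.mul_assoc, h2 i]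
    rw [h6]
    exact (h x).conjTranspose_mul_mul_same (P i)
  have hr : (P i * σ 0 + P i * σ 1).rank ≤ 3 := by
    rw [← Matrix.mul_add]
    exact h5 i
  obtain ⟨s, t, hs, ht, hst, v, w, hvw⟩ := CLS_exists (hps 0) (hps 1) hr
  refine ⟨s, t, hs, ht, hst, v, w, ?_⟩
  rw [← hvw, Matrix.mul_sub, Matrix.mul_smul, Matrix.mul_smul]

theorem pencil_of_rank_le_three {σ : Fin 2 → Matrix b b ℂ} (h : ∀ x, (σ x).PosSemidef)
    (hr : (σ 0 + σ 1).rank ≤ 3) : FlaggedPencil σ :=
  pencil_of_blocks h (fun _ : Fin 1 => 1) (fun _ => isHermitian_one)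
    (fun _ => Matrix.one_mul 1) (by simp) (fun _ _ => by rw [Matrix.one_mul, Matrix.mul_one])
    (fun _ => by rw [Matrix.one_mul]; exact hr)

theorem pencil_of_pure {σ : Fin 2 → Matrix b b ℂ} (h : ∀ x, IsDensity (σ x)) (x : Fin 2)
    (hp : ∃ v : b → ℂ, σ x = vecMulVec v (star v)) : FlaggedPencil σ := by
  obtain ⟨v, hv⟩ := hp
  refine ⟨1, fun _ => 1, fun _ => isHermitian_one, fun _ => Matrix.one_mul 1, by simp,
    fun _ _ => by rw [Matrix.one_mul, Matrix.mul_one], fun _ => ?_⟩
  fin_cases x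
  · refine ⟨1, 0, zero_le_one, le_rfl, by norm_num, v, 0, ?_⟩
    rw [Matrix.one_mul]
    have hv' : σ 0 = vecMulVec v (star v) := hv
    rw [hv']
    simp
  · refine ⟨0, 1, le_rfl, zero_le_one, by norm_num, 0, v, ?_⟩
    rw [Matrix.one_mul]
    have hv' : σ 1 = vecMulVec v (star v) := hv
    rw [hv']
    simp

theorem pencil_of_card_le_three {σ : Fin 2 → Matrix b b ℂ} (h : ∀ x, IsDensity (σ x))
    (hb : Fintype.card b ≤ 3) : FlaggedPencil σ :=
  pencil_of_rank_le_three (fun x => (h x).1) ((Matrix.rank_le_card_width _).trans hb)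

end Pool.Agent.LDK
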